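import Mathlib
import Pool.Agent.helper94.Rainbow
import Pool.Agent.helper94.RainbowLower
import Pool.Agent.helper94.RB.Final
import Pool.Agent.helper64.RE.Final
import Pool.Agent.helper64.RF.Final
import Pool.Agent.helper64.RC.Direct
import Pool.Agent.helper64.RC.Sparse
import Pool.Agent.helper64.RC.Nine
import Pool.Agent.RCF.Root
import Pool.Agent.RCF.Three

set_option autoImplicit false

/-!
# All pairs `(m, n)` with `m` implying `n`, up to a window of about `√(2n)` below `2n`
-/

namespace Pool.Agent.Results.MP_cd4fdd_co.Determination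

open Pool.Agent.helper94.Rainbow Pool.Agent.helper94.RainbowLower

/-- lengths below `n` do not imply `n` -/
theorem not_implies_of_lt (m n : ℕ) (hm : 3 ≤ m) (hmn : m < n) : ¬ Implies m n := by
  intro himp
  have : NeZero m := ⟨by omega⟩
  have hrc : HasRainbowCycle (id : Sym2 (ZMod m) → Sym2 (ZMod m)) m := by
    refine ⟨id, fun _ _ h => h, ?_⟩
    intro i j hij
    have h1 : s(i, i + 1) = s(j, j + 1) := hij
    rw [Sym2.eq_iff] at h1
    rcases h1 with h1 | h1
    · exact h1.1
    · exfalso
      have h2 : (2 : ZMod m) = 0 := by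
        have e1 := h1.1
        have e2 := h1.2
        rw [e1] at e2
        linear_combination e2
      have h3 : ((2 : ℕ) : ZMod m) = 0 := by exact_mod_cast h2
      rw [ZMod.natCast_eq_zero_iff] at h3
      have := Nat.le_of_dvd (by norm_num) h3
      omega
  obtain ⟨w, hw, -⟩ := himp (ZMod m) (Sym2 (ZMod m)) id hrc
  have : NeZero n := ⟨by omega⟩
  have h4 := Fintype.card_le_of_injective w hw
  rw [ZMod.card, ZMod.card] at h4
  omega

/-- even lengths strictly between `n` and `2n - 2` do not imply the odd number `n` -/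
theorem not_implies_even_odd (m n : ℕ) (hn : n % 2 = 1) (hm : m % 2 = 0) (h1 : n < m)
    (h2 : m < 2 * n - 2) : ¬ Implies m n := by
  intro himp
  obtain ⟨h, rfl⟩ : ∃ h, m = 2 * h := ⟨m / 2, by omega⟩
  obtain ⟨κ, hκ⟩ : ∃ κ, 2 * h = n + κ := ⟨2 * h - n, by omega⟩
  have hκo : Odd κ := by
    rw [Nat.odd_iff]
    omega
  have hham : HasRainbowCycle (colouring h κ) (2 * h) := has_ham (by omega)
  exact no_rainbow hκo hκ (by omega) (Nat.odd_iff.mpr hn) le_rfl (himp _ _ (colouring h κ) hham)

/-- Let `m, n ≥ 3` and `n ≠ 5`. Unless `m` lies in the window described by the negation of `hw`,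
`m` implies `n` if and only if `m = n`, or `m ≥ 2n - 3` and one of the following holds: `n` is odd;
`4` divides `n` and `m` is even; `n` and `m` are congruent to `2` modulo `4`. -/
theorem result (m n : ℕ) (hm : 3 ≤ m) (hn : 3 ≤ n) (hn5 : n ≠ 5)
    (hw : m ≤ n ∨ 2 * n - 3 ≤ m ∨ m % 2 ≠ n % 2 ∨ (n % 4 = 2 ∧ m % 4 ≠ 2) ∨
      2 * m + 3 ≤ 3 * n ∨ (Even n ∧ (m : ℝ) ≤ 2 * n - 3 - √(2 * n - 3)) ∨
      (Odd n ∧ (m : ℝ) ≤ 2 * n - 4 - √(2 * n - 5))) :
    Implies m n ↔ m = n ∨
      2 * n - 3 ≤ m ∧ (Odd n ∨ (4 ∣ n ∧ Even m) ∨ (n % 4 = 2 ∧ m % 4 = 2)) := by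
  -- the negative part inside the classes
  have hneg : n < m → m < 2 * n - 3 → m % 2 = n % 2 → (n % 4 = 2 → m % 4 = 2) →
      ¬ Implies m n := by
    intro h1 h2 h3 h4
    rcases hw with h | h | h | h | h | h | h
    · omega
    · omega
    · exact absurd h3 h
    · exact absurd (h4 h.1) h.2
    · by_cases h97 : (m, n) = (9, 7)
      · rw [Prod.mk.injEq] at h97
        obtain ⟨rfl, rfl⟩ := h97
        exact Pool.Agent.helper64.RC.Nine.not_implies_nine_seven
      · exact Pool.Agent.helper64.RC.not_implies_sparse (by omega) h1 h h97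
    · exact Pool.Agent.RCF.not_implies_sqrt_even m n h1 (Nat.even_iff.mp h.1) h.2
    · exact Pool.Agent.RCF.not_implies_sqrt_odd m n h1 (Nat.odd_iff.mp h.1) h.2
  rcases lt_trichotomy m n with hmn | hmn | hmn
  · constructor
    · intro h
      exact absurd h (not_implies_of_lt m n hm hmn)
    · rintro (h | h)
      · omega
      · omega
  · subst hmn
    exact ⟨fun _ => Or.inl rfl, fun _ _ _ _ _ h => h⟩
  · constructor
    · intro h
      right
      rcases Nat.mod_two_eq_zero_or_one n with hn2 | hn2
      · rcases Nat.mod_two_eq_zero_or_one m with hm2 | hm2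
        · have hm4 : n % 4 = 2 → m % 4 = 2 := by
            intro h4
            by_contra h5
            exact Pool.Agent.helper64.RC.not_implies_of_mod_four hm (by omega) (by omega) h4 h
          refine ⟨?_, ?_⟩
          · by_contra hlt
            exact hneg hmn (by omega) (by omega) hm4 h
          · by_cases h4 : n % 4 = 2
            · exact Or.inr (Or.inr ⟨h4, hm4 h4⟩)
            · exact Or.inr (Or.inl ⟨Nat.dvd_of_mod_eq_zero (by omega), Nat.even_iff.mpr hm2⟩)
        · exact absurd h (Pool.Agent.helper64.RC.not_implies_of_odd hm hm2 (by omega) hn2)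
      · refine ⟨?_, Or.inl (Nat.odd_iff.mpr hn2)⟩
        by_contra hlt
        rcases Nat.mod_two_eq_zero_or_one m with hm2 | hm2
        · exact not_implies_even_odd m n hn2 hm2 hmn (by omega) h
        · exact hneg hmn (by omega) (by omega) (by omega) h
    · rintro (h | ⟨h, h2 | h2 | h2⟩)
      · omega
      · have h3 := Nat.odd_iff.mp h2
        by_cases hn3 : n = 3
        · subst hn3
          exact Pool.Agent.RCF.implies_three m hm
        · exact Pool.Agent.helper94.RB.implies_all n h2 (by omega) m h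
      · have h3 := Nat.mod_eq_zero_of_dvd h2.1
        have h4 := Nat.even_iff.mp h2.2
        exact Pool.Agent.helper64.RE.implies_even n h3 (by omega) m (by omega) h4
      · exact Pool.Agent.helper64.RF.implies_two_mod_four n h2.1 (by omega) m (by omega) h2.2

end Pool.Agent.Results.MP_cd4fdd_co.Determination
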