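import Mathlib
import Pool.Agent.helper94.Rainbow
import Pool.Agent.helper94.RainbowLower
import Pool.Agent.helper94.RB.Final

set_option autoImplicit false

/-!
# The threshold `g(n) = 2n - 3` for all odd `n ≥ 7`
-/

namespace Pool.Agent.Results.MP_cd4fdd_co.ThresholdExact

open Pool.Agent.helper94.Rainbow Pool.Agent.helper94.RainbowLower

/-- lengths below `n` do not imply `n` -/
theorem not_implies_of_lt (m n : ℕ) (hm : 3 ≤ m) (hmn : m < n) : ¬ Implies m n := by
  intro himp
  have : NeZero m := ⟨by omega⟩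
  have hrc : HasRainbowCycle (id : Sym2 (ZMod m) → Sym2 (ZMod m)) m := by
    refine ⟨id, fun _ _ h => h, ?_⟩
    intro i j hij
    have h1 : s(i, i + 1) = s(j, j + 1) := hij
    rw [Sym2.eq_iff] at h1
    rcases h1 with h1 | h1
    · exact h1.1
    · exfalso
      have h2 : (2 : ZMod m) = 0 := by
        have e1 := h1.1
        have e2 := h1.2
        rw [e1] at e2
        linear_combination e2
      have h3 : ((2 : ℕ) : ZMod m) = 0 := by exact_mod_cast h2
      rw [ZMod.natCast_eq_zero_iff] at h3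
      have := Nat.le_of_dvd (by norm_num) h3
      omega
  obtain ⟨w, hw, -⟩ := himp (ZMod m) (Sym2 (ZMod m)) id hrc
  have : NeZero n := ⟨by omega⟩
  have h4 := Fintype.card_le_of_injective w hw
  rw [ZMod.card, ZMod.card] at h4
  omega

/-- Let `n ≥ 7` be odd. The least `M` such that `m` implies `n` for all `m ≥ M` is `2n - 3`. For
even `m ≥ 4`, `m` implies `n` if and only if `m ≥ 2n - 2`; for odd `m ≥ 2n - 3`, `m` implies `n`;
for `3 ≤ m < n`, `m` does not imply `n`. If `m` is even and `n < m < 2n - 2` then there is even a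
colouring of the complete graph on `m` vertices with a rainbow `m`-cycle and with no rainbow cycle
of any odd length at least `n`. -/
theorem result (n : ℕ) (hn : Odd n) (h7 : 7 ≤ n) :
    IsLeast {M : ℕ | ∀ m, M ≤ m → Implies m n} (2 * n - 3) ∧
    (∀ m, 4 ≤ m → Even m → (Implies m n ↔ 2 * n - 2 ≤ m)) ∧
    (∀ m, Odd m → 2 * n - 3 ≤ m → Implies m n) ∧
    (∀ m, 3 ≤ m → m < n → ¬ Implies m n) ∧
    (∀ m, Even m → n < m → m < 2 * n - 2 →
      ∃ (V C : Type) (_ : Fintype V) (c : Sym2 V → C), Fintype.card V = m ∧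
        HasRainbowCycle c m ∧ ∀ ℓ : ℕ, Odd ℓ → n ≤ ℓ → ¬ HasRainbowCycle c ℓ) := by
  have hall : ∀ m, 2 * n - 3 ≤ m → Implies m n :=
    fun m hm => Pool.Agent.helper94.RB.implies_all n hn h7 m hm
  have hneg : ∀ m, Even m → n < m → m < 2 * n - 2 →
      ∃ (V C : Type) (_ : Fintype V) (c : Sym2 V → C), Fintype.card V = m ∧
        HasRainbowCycle c m ∧ ∀ ℓ : ℕ, Odd ℓ → n ≤ ℓ → ¬ HasRainbowCycle c ℓ := by
    intro m hm hnm hmn
    obtain ⟨h, rfl⟩ := hm.two_dvd
    obtain ⟨κ, hκ⟩ : ∃ κ, 2 * h = n + κ := ⟨2 * h - n, by omega⟩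
    have hκo : Odd κ := by
      rw [Nat.odd_iff] at hn ⊢
      omega
    have hlt : κ + 2 < n := by omega
    have hham : HasRainbowCycle (colouring h κ) (2 * h) := has_ham (by omega)
    refine ⟨Bool × Fin h, Option (Bool × Fin h), inferInstance, colouring h κ, ?_, hham, ?_⟩
    · simp
    · intro ℓ hℓ hnℓ
      exact no_rainbow hκo hκ hlt hℓ hnℓ
  have hneg' : ∀ m, Even m → n < m → m < 2 * n - 2 → ¬ Implies m n := by
    intro m hm h1 h2 himp
    obtain ⟨V, C, _, c, -, h3, h4⟩ := hneg m hm h1 h2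
    exact h4 n hn le_rfl (himp V C c h3)
  have hn2 : n % 2 = 1 := Nat.odd_iff.mp hn
  refine ⟨⟨hall, ?_⟩, ?_, fun m _ => hall m, fun m h3 h4 => not_implies_of_lt m n h3 h4, hneg⟩
  · intro M hM
    by_contra hlt
    push Not at hlt
    exact hneg' (2 * n - 4) ⟨n - 2, by omega⟩ (by omega) (by omega) (hM _ (by omega))
  · intro m h4 hm
    constructor
    · intro himp
      by_contra hlt
      push Not at hlt
      have hm2 : m % 2 = 0 := Nat.even_iff.mp hm
      rcases Nat.lt_or_ge m n with h | h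
      · exact not_implies_of_lt m n (by omega) h himp
      · exact hneg' m hm (by omega) hlt himp
    · intro h
      exact hall m (by omega)

end Pool.Agent.Results.MP_cd4fdd_co.ThresholdExact
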